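import Pool.Agent.R7.Horo.Quad

set_option autoImplicit false

/-!
# MP_d7f0d3_co: the minimum number of horocycles determined by `n` points has order `n²`

The hyperbolic plane is the upper half-plane `ℍ`; the horocycles are the Euclidean circles tangent
to the real line (without the point of tangency) and the horizontal lines.

Proof of the lower bound. The horocycle with centre `ξ` and Euclidean radius `r` passes through
`p = x + i y` iff `r = ((x - ξ)² + y²) / 2 y =: g_p(ξ)`. The decreasing branches `ξ < x` of the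
functions `g_p` cross pairwise at most once, so they satisfy a Szemerédi–Trotter bound; the same
holds for the increasing branches. Hence at most `C (n² / j³ + n / j)` horocycles contain more than
`j` of the points. As each pair of points is on a horocycle, either there are at least `c n²`
horocycles with boundedly many points, or one horocycle contains `c n` points; in this case the
second horocycles through its pairs of points of different heights are at least `c n²` in number.
-/

namespace Pool.Agent.Results.MP_d7f0d3_co.QuadraticGrowth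

open Finset UpperHalfPlane Pool.Agent.R7.Horo
open scoped Classical

/-- The horocycle whose centre is the ideal point `ξ ∈ ℝ`, with Euclidean radius `r`. -/
def horo (ξ r : ℝ) : Set ℍ := {z | (z.re - ξ) ^ 2 + (z.im - r) ^ 2 = r ^ 2}

/-- The horocycle of height `c` whose centre is the ideal point `∞`. -/
def horoInf (c : ℝ) : Set ℍ := {z | z.im = c}

/-- The horocycles of the hyperbolic plane. -/
def IsHorocycle (C : Set ℍ) : Prop :=
  (∃ ξ r : ℝ, 0 < r ∧ C = horo ξ r) ∨ ∃ c : ℝ, 0 < c ∧ C = horoInf c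

/-- The horocycles that contain at least two points of `P`. -/
def determined (P : Finset ℍ) : Set (Set ℍ) :=
  {C | IsHorocycle C ∧ ∃ p ∈ P, ∃ q ∈ P, p ≠ q ∧ p ∈ C ∧ q ∈ C}

/-- The least number of horocycles determined by `n` points. -/
noncomputable def m (n : ℕ) : ℕ :=
  sInf {k : ℕ | ∃ P : Finset ℍ, P.card = n ∧ (determined P).ncard = k}

/-- coordinates -/
noncomputable def ec (z : ℍ) : ℝ × ℝ := (z.re, z.im)

lemma ec_inj : Function.Injective ec := by
  intro z w h
  unfold ec at h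
  rw [Prod.mk.injEq] at h
  exact UpperHalfPlane.ext_re_im h.1 h.2

lemma mem_horo {z : ℍ} {h : ℝ × ℝ} : z ∈ horo h.1 h.2 ↔ On (ec z) h := by
  rw [On_eq (show 0 < (ec z).2 from z.im_pos)]
  unfold horo ec
  simp only [Set.mem_ofPred_eq]
  constructor <;> intro h <;> linarith

lemma gg_pos {p : ℝ × ℝ} (hp : 0 < p.2) (ξ : ℝ) : 0 < gg p ξ := by
  unfold gg
  positivity

/-- a point of the upper half-plane -/
noncomputable def mkP (x y : ℝ) (hy : 0 < y) : ℍ := ⟨⟨x, y⟩, hy⟩

lemma horo_inj {h h' : ℝ × ℝ} (h1 : 0 < h.2) (h2 : 0 < h'.2)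
    (he : horo h.1 h.2 = horo h'.1 h'.2) : h = h' := by
  have a1 : mkP h.1 (2 * h.2) (by positivity) ∈ horo h.1 h.2 := by
    show (h.1 - h.1) ^ 2 + (2 * h.2 - h.2) ^ 2 = h.2 ^ 2
    ring
  have a2 : mkP h'.1 (2 * h'.2) (by positivity) ∈ horo h'.1 h'.2 := by
    show (h'.1 - h'.1) ^ 2 + (2 * h'.2 - h'.2) ^ 2 = h'.2 ^ 2
    ring
  rw [he] at a1
  rw [← he] at a2
  have b1 : (h.1 - h'.1) ^ 2 + (2 * h.2 - h'.2) ^ 2 = h'.2 ^ 2 := a1
  have b2 : (h'.1 - h.1) ^ 2 + (2 * h'.2 - h.2) ^ 2 = h.2 ^ 2 := a2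
  have c1 : (h.2 - h'.2) * (h.2 + h'.2) = 0 := by nlinarith
  have c2 : h.2 = h'.2 := by
    rcases mul_eq_zero.1 c1 with h0 | h0
    · linarith
    · linarith
  have c3 : (h.1 - h'.1) ^ 2 = 0 := by
    rw [c2] at b1
    linarith
  have c4 : h.1 - h'.1 = 0 := by
    exact pow_eq_zero_iff (two_ne_zero) |>.1 c3
  exact Prod.ext (by linarith) c2

lemma image_pos (P : Finset ℍ) : ∀ p ∈ P.image ec, 0 < p.2 := by
  intro p hp
  obtain ⟨z, _, rfl⟩ := mem_image.1 hp
  exact z.im_pos

lemma determined_finite (P : Finset ℍ) : (determined P).Finite := by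
  have h1 : ((fun h : ℝ × ℝ => horo h.1 h.2) '' Hs (P.image ec) ∪
      horoInf '' ((P.image (fun z => z.im) : Finset ℝ) : Set ℝ)).Finite :=
    ((Hs_finite (image_pos P)).image _).union ((Finset.finite_toSet _).image _)
  refine h1.subset ?_
  rintro C ⟨hC, p, hp, q, hq, hpq, hpC, hqC⟩
  rcases hC with ⟨ξ, r, hr, rfl⟩ | ⟨c, hc, rfl⟩
  · left
    refine ⟨(ξ, r), ⟨ec p, mem_image_of_mem _ hp, ec q, mem_image_of_mem _ hq, ?_, ?_, ?_⟩, rfl⟩
    · exact fun h => hpq (ec_inj h)
    · exact mem_horo.1 hpC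
    · exact mem_horo.1 hqC
  · right
    refine ⟨c, ?_, rfl⟩
    rw [mem_coe, mem_image]
    exact ⟨p, hp, hpC⟩

lemma lower (P : Finset ℍ) (hn : 2 ≤ P.card) : P.card ^ 2 ≤ 5 * 10 ^ 10 * (determined P).ncard := by
  set H := (Hs_finite (image_pos P)).toFinset with hH
  have hmem : ∀ h, h ∈ H ↔ h ∈ Hs (P.image ec) := by
    intro h
    rw [hH, Set.Finite.mem_toFinset]
  have hcard : (P.image ec).card = P.card := card_image_of_injective _ ec_inj
  have h1 := main_count (image_pos P) hmem (by rw [hcard]; exact hn)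
  rw [hcard] at h1
  refine h1.trans (Nat.mul_le_mul_left _ ?_)
  rw [← Set.ncard_coe_finset]
  refine Set.ncard_le_ncard_of_injOn (fun h : ℝ × ℝ => horo h.1 h.2) ?_ ?_ (determined_finite P)
  · intro h hh
    rw [mem_coe, hmem] at hh
    obtain ⟨p, hp, q, hq, hpq, h2, h3⟩ := hh
    obtain ⟨a, ha, rfl⟩ := mem_image.1 hp
    obtain ⟨b, hb, rfl⟩ := mem_image.1 hq
    refine ⟨Or.inl ⟨h.1, h.2, ?_, rfl⟩, a, ha, b, hb, ?_, mem_horo.2 h2, mem_horo.2 h3⟩
    · rw [h2]
      exact gg_pos a.im_pos _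
    · rintro rfl
      exact hpq rfl
  · intro h hh h' hh' he
    rw [mem_coe, hmem] at hh hh'
    obtain ⟨p, hp, q, hq, hpq, h2, h3⟩ := hh
    obtain ⟨p', hp', q', hq', hpq', h2', h3'⟩ := hh'
    refine horo_inj ?_ ?_ he
    · rw [h2]
      exact gg_pos (image_pos P p hp) _
    · rw [h2']
      exact gg_pos (image_pos P p' hp') _

/-- `n` points on a horocycle -/
noncomputable def row (n : ℕ) : Finset ℍ := (range n).image (fun i : ℕ => mkP (i : ℝ) 1 one_pos)

lemma mkP_inj : Function.Injective (fun i : ℕ => mkP (i : ℝ) 1 one_pos) := by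
  intro i j h
  have h1 : (i : ℝ) = j := congrArg (fun z : ℍ => z.re) h
  exact_mod_cast h1

lemma row_card (n : ℕ) : (row n).card = n := by
  unfold row
  rw [card_image_of_injective _ mkP_inj, card_range]

lemma upper (n : ℕ) : (determined (row n)).ncard ≤ n.choose 2 + 1 := by
  set F : Finset ℕ → Set ℍ := fun S => horo ((∑ i ∈ S, (i : ℝ)) / 2)
    (((2 * ∑ i ∈ S, (i : ℝ) ^ 2 - (∑ i ∈ S, (i : ℝ)) ^ 2) / 4 + 1) / 2) with hF
  have hsub : determined (row n) ⊆
      (((powersetCard 2 (range n)).image F ∪ {horoInf 1} : Finset (Set ℍ)) : Set (Set ℍ)) := by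
    rintro C ⟨hC, p, hp, q, hq, hpq, hpC, hqC⟩
    rw [row, mem_image] at hp hq
    obtain ⟨i, hi, rfl⟩ := hp
    obtain ⟨j, hj, rfl⟩ := hq
    have hij : i ≠ j := by
      rintro rfl
      exact hpq rfl
    rw [mem_coe, mem_union]
    rcases hC with ⟨ξ, r, hr, rfl⟩ | ⟨c, hc, rfl⟩
    · left
      rw [mem_image]
      refine ⟨({i, j} : Finset ℕ), ?_, ?_⟩
      · rw [mem_powersetCard]
        refine ⟨?_, card_pair hij⟩
        intro x hx
        rw [mem_insert, mem_singleton] at hx
        rcases hx with rfl | rfl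
        · exact hi
        · exact hj
      · rw [hF]
        simp only
        rw [sum_pair hij, sum_pair hij]
        have e1 : ((i : ℝ) - ξ) ^ 2 + (1 - r) ^ 2 = r ^ 2 := hpC
        have e2 : ((j : ℝ) - ξ) ^ 2 + (1 - r) ^ 2 = r ^ 2 := hqC
        have e3 : ((i : ℝ) - j) * ((i : ℝ) + j - 2 * ξ) = 0 := by linear_combination e1 - e2
        have e4 : ξ = ((i : ℝ) + j) / 2 := by
          rcases mul_eq_zero.1 e3 with h0 | h0
          · exact absurd (by exact_mod_cast (by linarith : (i : ℝ) = j)) hij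
          · linarith
        have e5 : r = ((2 * ((i : ℝ) ^ 2 + (j : ℝ) ^ 2) - ((i : ℝ) + j) ^ 2) / 4 + 1) / 2 := by
          rw [e4] at e1
          linear_combination (-1 / 2) * e1
        rw [← e4, ← e5]
    · right
      rw [mem_singleton]
      have : (1 : ℝ) = c := hpC
      rw [← this]
  refine (Set.ncard_le_ncard hsub (Finset.finite_toSet _)).trans ?_
  rw [Set.ncard_coe_finset]
  refine (card_union_le _ _).trans ?_
  rw [card_singleton]
  refine Nat.add_le_add_right (card_image_le.trans ?_) 1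
  rw [card_powersetCard, card_range]

/-- **The order of magnitude of `m(n)` is `n²`.** Every finite set of points determines finitely many
horocycles, the minimum `m(n)` is attained, and `n² / (5 · 10¹⁰) ≤ m(n) ≤ n (n - 1) / 2 + 1` for all
`n ≥ 2`. -/
theorem result :
    (∀ P : Finset ℍ, (determined P).Finite) ∧
    (∀ n : ℕ, (∃ P : Finset ℍ, P.card = n ∧ (determined P).ncard = m n) ∧
      ∀ P : Finset ℍ, P.card = n → m n ≤ (determined P).ncard) ∧
    ∀ n : ℕ, 2 ≤ n → (n : ℝ) ^ 2 / (5 * 10 ^ 10) ≤ m n ∧ m n ≤ n.choose 2 + 1 := by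
  have hatt : ∀ n : ℕ, ∃ P : Finset ℍ, P.card = n ∧ (determined P).ncard = m n := fun n =>
    Nat.sInf_mem (s := {k : ℕ | ∃ P : Finset ℍ, P.card = n ∧ (determined P).ncard = k})
      ⟨_, row n, row_card n, rfl⟩
  refine ⟨determined_finite, fun n => ⟨hatt n, fun P hP => Nat.sInf_le ⟨P, hP, rfl⟩⟩, ?_⟩
  intro n hn
  constructor
  · obtain ⟨P, hP, hm⟩ := hatt n
    have h1 := lower P (by rw [hP]; exact hn)
    rw [hP, hm] at h1
    rw [div_le_iff₀ (by positivity)]
    have h2 : (n : ℝ) ^ 2 ≤ 5 * 10 ^ 10 * m n := by exact_mod_cast h1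
    linarith
  · exact (Nat.sInf_le ⟨row n, row_card n, rfl⟩ : m n ≤ _).trans (upper n)

end Pool.Agent.Results.MP_d7f0d3_co.QuadraticGrowth
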